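import Pool.Agent.Helper31.LQ.Goals2
import Pool.Agent.Helper69.LQ.D0B

/-!
# Packet LQ-SH2
-/

open MeasureTheory Set
open scoped ENNReal Matrix
open Pool.Agent.Helper47.AQ

noncomputable section

namespace Pool.Agent.Helper98.LQ

open Pool.Agent.Helper31.LQ

variable {n : ℕ}

/-- the functional `ell j` on `ℝ^n` -/
def eL (j : Fin (n + 1)) : (Fin n → ℝ) →ₗ[ℝ] ℝ where
  toFun x := ell j (li x)
  map_add' x y := by
    have := Pool.Agent.Helper69.LQ.ell_comb j 1 1 x y
    simpa only [one_smul, one_mul] using this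
  map_smul' c x := by
    have := Pool.Agent.Helper69.LQ.ell_comb j c 0 x x
    simpa only [zero_smul, zero_mul, add_zero, RingHom.id_apply, smul_eq_mul] using this

theorem eL_apply (j : Fin (n + 1)) (x : Fin n → ℝ) : eL j x = ell j (li x) := rfl

theorem sum_ver : ∑ o : Fin (n + 1), (ver o : Fin n → ℝ) = 0 := by
  funext m
  rw [Finset.sum_apply, Fin.sum_univ_castSucc]
  simp only [Pool.Agent.Helper69.LQ.ver_castSucc, Pool.Agent.Helper69.LQ.ver_last,
    Pi.zero_apply]
  simp [Pi.single_apply]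

theorem sum_eL (x : Fin n → ℝ) : ∑ j : Fin (n + 1), eL j x = 0 := by
  have h := Pool.Agent.Helper69.LQ.sum_w x
  have hn : ((n : ℝ) + 1) ≠ 0 := by positivity
  rw [← Finset.sum_div, Finset.sum_sub_distrib, Finset.sum_const, Finset.card_univ,
    Fintype.card_fin, nsmul_eq_mul, mul_one, div_eq_one_iff_eq hn] at h
  push_cast at h
  simp only [eL_apply]
  linarith

theorem eL_expand (x : Fin n → ℝ) (l : Fin n) :
    x l = ∑ j : Fin (n + 1), (-(eL j x) / (n + 1)) * (ver j : Fin n → ℝ) l := by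
  have h := congrFun (Pool.Agent.Helper69.LQ.CO x) l
  have h0 := congrFun (sum_ver (n := n)) l
  rw [Finset.sum_apply] at h h0
  rw [h]
  have e : ∀ j : Fin (n + 1), (((1 - ell j (li x)) / ((n : ℝ) + 1)) • (ver j : Fin n → ℝ)) l =
      (-(eL j x) / (n + 1)) * (ver j : Fin n → ℝ) l + (1 / ((n : ℝ) + 1)) * (ver j : Fin n → ℝ) l := by
    intro j
    rw [Pi.smul_apply, smul_eq_mul, eL_apply]
    ring
  rw [Finset.sum_congr rfl fun j _ => e j, Finset.sum_add_distrib, ← Finset.mul_sum, h0,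
    Pi.zero_apply, mul_zero, add_zero]

/-- the determinant of the matrix of the barycentric coordinates of the images of the vertices -/
theorem det_bary (H : (Fin n → ℝ) ≃ᵃ[ℝ] (Fin n → ℝ))
    (B : Matrix (Fin (n + 1)) (Fin (n + 1)) ℝ)
    (hB : ∀ j o, B j o = (1 - ell j (li (H (ver o)))) / (n + 1)) :
    B.det = LinearMap.det (H.linear : (Fin n → ℝ) →ₗ[ℝ] (Fin n → ℝ)) := by
  have hn : ((n : ℝ) + 1) ≠ 0 := by positivity
  set A := LinearMap.toMatrix' (H.linear : (Fin n → ℝ) →ₗ[ℝ] (Fin n → ℝ)) with hA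
  set W : Matrix (Fin n ⊕ Unit) (Fin (n + 1)) ℝ :=
    Matrix.of fun i o => Sum.elim (fun l => (ver o : Fin n → ℝ) l) (fun _ => (1 : ℝ)) i with hW
  set W' : Matrix (Fin (n + 1)) (Fin n ⊕ Unit) ℝ :=
    Matrix.of fun j i => Sum.elim (fun l => -(eL j (Pi.single l (1 : ℝ))) / ((n : ℝ) + 1))
      (fun _ => 1 / ((n : ℝ) + 1)) i with hW'
  set M : Matrix (Fin n ⊕ Unit) (Fin n ⊕ Unit) ℝ :=
    Matrix.fromBlocks A (Matrix.of fun l _ => H 0 l) 0 1 with hM
  have hWW : W * W' = 1 := by
    ext i k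
    rw [Matrix.mul_apply]
    rcases i with l | ⟨⟩ <;> rcases k with m | ⟨⟩
    · have h1 := eL_expand (Pi.single m (1 : ℝ)) l
      rw [Matrix.one_apply]
      have h2 : (Pi.single m (1 : ℝ) : Fin n → ℝ) l =
          if (Sum.inl l : Fin n ⊕ Unit) = Sum.inl m then 1 else 0 := by
        rw [Pi.single_apply]
        simp only [Sum.inl.injEq]
      rw [← h2, h1]
      exact Finset.sum_congr rfl fun j _ => mul_comm _ _
    · have h0 := congrFun (sum_ver (n := n)) l
      rw [Finset.sum_apply, Pi.zero_apply] at h0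
      rw [Matrix.one_apply_ne (by simp)]
      show ∑ j : Fin (n + 1), (ver j : Fin n → ℝ) l * (1 / ((n : ℝ) + 1)) = 0
      rw [← Finset.sum_mul, h0, zero_mul]
    · rw [Matrix.one_apply_ne (by simp)]
      show ∑ j : Fin (n + 1), (1 : ℝ) * (-(eL j (Pi.single m (1 : ℝ))) / ((n : ℝ) + 1)) = 0
      simp only [one_mul]
      rw [← Finset.sum_div, Finset.sum_neg_distrib, sum_eL, neg_zero, zero_div]
    · rw [Matrix.one_apply_eq]
      show ∑ j : Fin (n + 1), (1 : ℝ) * (1 / ((n : ℝ) + 1)) = 1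
      rw [Finset.sum_const, Finset.card_univ, Fintype.card_fin, nsmul_eq_mul]
      push_cast
      field_simp
  have e : Fin n ⊕ Unit ≃ Fin (n + 1) := Fintype.equivOfCardEq (by simp)
  have hWW' : W' * W = 1 := (Matrix.mul_eq_one_comm_of_equiv e).1 hWW
  have hHx : ∀ x, H x = H.linear x + H 0 := by
    intro x
    have := H.map_vadd 0 x
    simpa using this
  have hMW : M * W = W * B := by
    ext i o
    rw [Matrix.mul_apply, Matrix.mul_apply]
    rcases i with l | ⟨⟩
    · have h1 : ∑ j, W (Sum.inl l) j * B j o = H (ver o) l := by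
        have h2 := congrFun (Pool.Agent.Helper69.LQ.CO (H (ver o))) l
        rw [Finset.sum_apply] at h2
        rw [h2]
        refine Finset.sum_congr rfl fun j _ => ?_
        rw [Pi.smul_apply, smul_eq_mul, hB]
        exact mul_comm _ _
      rw [h1, hHx, Fintype.sum_sum_type]
      have h3 : ∑ m : Fin n, M (Sum.inl l) (Sum.inl m) * W (Sum.inl m) o =
          (A.mulVec (ver o)) l := rfl
      have h4 : A.mulVec (ver o : Fin n → ℝ) = H.linear (ver o) := by
        rw [hA]
        exact LinearMap.toMatrix'_mulVec _ _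
      rw [h3, h4, Pi.add_apply]
      congr 1
      rw [Fintype.sum_unique]
      show H 0 l * 1 = H 0 l
      rw [mul_one]
    · have h1 : ∑ j, W (Sum.inr ()) j * B j o = 1 := by
        rw [← Pool.Agent.Helper69.LQ.sum_w (H (ver o))]
        refine Finset.sum_congr rfl fun j _ => ?_
        rw [hB]
        exact one_mul _
      rw [h1, Fintype.sum_sum_type]
      have h3 : ∑ m : Fin n, M (Sum.inr ()) (Sum.inl m) * W (Sum.inl m) o = 0 := by
        refine Finset.sum_eq_zero fun m _ => ?_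
        show (0 : ℝ) * _ = 0
        rw [zero_mul]
      rw [h3, zero_add, Fintype.sum_unique]
      show (1 : Matrix Unit Unit ℝ) () () * 1 = 1
      rw [Matrix.one_apply_eq, one_mul]
  have hM2 : M = W * B * W' := by
    rw [← hMW, Matrix.mul_assoc, hWW, Matrix.mul_one]
  have h1 : M.det = B.det := by
    rw [hM2]
    exact Matrix.det_conj_of_mul_eq_one hWW hWW'
  rw [← h1, hM, Matrix.det_fromBlocks_zero₂₁, Matrix.det_one, mul_one, hA,
    LinearMap.det_toMatrix']

theorem gSH2 (hM : Pool.Agent.Helper31.LQ.SH2M) : Pool.Agent.Helper31.LQ.SH2 := by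
  intro n hn
  obtain ⟨C, hC0, hC⟩ := hM n hn
  refine ⟨C, hC0, fun τ hτ0 hτ1 D' hD' hK => ?_⟩
  have hn0 : (0 : ℝ) < n := by exact_mod_cast hn
  have hn1 : (0 : ℝ) < (n : ℝ) + 1 := by positivity
  obtain ⟨_, hS, _⟩ := Pool.Agent.Helper69.LQ.gD0B n hn
  obtain ⟨H, hH⟩ := hD'.equiv hS rfl
  have hHx : ∀ x, H x = H.linear x + H 0 := by
    intro x
    have := H.map_vadd 0 x
    simpa using this
  -- the functionals
  have hmem : ∀ x ∈ D', ∀ j : Fin (n + 1), eL j (H.linear x) ≤ 1 - eL j (H 0) := by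
    intro x hx j
    have h1 : H x ∈ D0 n := by
      rw [← hH]
      exact mem_image_of_mem _ hx
    have h2 := h1 j
    rw [← eL_apply, hHx, map_add] at h2
    linarith
  have hcen : ∀ j o : Fin (n + 1), -(eL j (H.linear (ver o))) ≤ n * (1 - eL j (H 0)) := by
    intro j o
    have h1 : (-(1 / (n : ℝ))) • (ver o : Fin n → ℝ) ∈ D' :=
      hK (subset_convexHull ℝ _ (Or.inr (mem_range_self o)))
    have h2 := hmem _ h1 j
    rw [map_smul, map_smul, smul_eq_mul] at h2
    have h3 := mul_le_mul_of_nonneg_left h2 hn0.le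
    have h4 : (n : ℝ) * (-(1 / (n : ℝ)) * eL j (H.linear (ver o))) =
        -(eL j (H.linear (ver o))) := by
      field_simp
    rw [h4] at h3
    exact h3
  have htip : ∀ j o : Fin (n + 1), eL j (H.linear (ver o)) ≤ (1 + τ) * (1 - eL j (H 0)) := by
    intro j o
    have h1 : (1 + τ)⁻¹ • (ver o : Fin n → ℝ) ∈ D' :=
      hK (subset_convexHull ℝ _ (Or.inl (mem_range_self o)))
    have h2 := hmem _ h1 j
    rw [map_smul, map_smul, smul_eq_mul] at h2
    have h5 : 0 < 1 + τ := by linarith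
    have h3 := mul_le_mul_of_nonneg_left h2 h5.le
    rwa [← mul_assoc, mul_inv_cancel₀ h5.ne', one_mul] at h3
  have hsumv : ∀ j : Fin (n + 1), ∑ o : Fin (n + 1), eL j (H.linear (ver o)) = 0 := by
    intro j
    rw [← map_sum, ← map_sum, sum_ver, map_zero, map_zero]
  -- the matrix
  set B : Matrix (Fin (n + 1)) (Fin (n + 1)) ℝ :=
    Matrix.of fun j o => (1 - ell j (li (H (ver o)))) / ((n : ℝ) + 1) with hB
  have hBv : ∀ j o, B j o = (1 - eL j (H 0) - eL j (H.linear (ver o))) / ((n : ℝ) + 1) := by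
    intro j o
    show (1 - ell j (li (H (ver o)))) / ((n : ℝ) + 1) = _
    rw [← eL_apply, hHx, map_add]
    ring
  have hrow : ∀ j, ∑ o, B j o = 1 - eL j (H 0) := by
    intro j
    rw [Finset.sum_congr rfl fun o _ => hBv j o, ← Finset.sum_div, Finset.sum_sub_distrib,
      hsumv, Finset.sum_const, Finset.card_univ, Fintype.card_fin, nsmul_eq_mul]
    push_cast
    field_simp
    ring
  have hs0 : ∀ j : Fin (n + 1), 0 ≤ 1 - eL j (H 0) := by
    intro j
    have h1 := Finset.sum_le_sum fun o (_ : o ∈ Finset.univ) => hcen j o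
    rw [Finset.sum_neg_distrib, hsumv, neg_zero, Finset.sum_const, Finset.card_univ,
      Fintype.card_fin, nsmul_eq_mul] at h1
    push_cast at h1
    by_contra h2
    push Not at h2
    have h3 : ((n : ℝ) + 1) * (n * (1 - eL j (H 0))) < 0 :=
      mul_neg_of_pos_of_neg hn1 (mul_neg_of_pos_of_neg hn0 h2)
    linarith
  have hdet := hC (τ / ((n : ℝ) + 1)) (by positivity) (by
    rw [mul_div_cancel₀ _ hn1.ne']
    exact hτ1) B (fun j => 1 - eL j (H 0)) hrow (by
      intro j o
      rw [hBv]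
      constructor
      · rw [← sub_nonneg]
        have h1 := htip j o
        have e : (1 - eL j (H 0) - eL j (H.linear (ver o))) / ((n : ℝ) + 1) -
            -(τ / ((n : ℝ) + 1) * (1 - eL j (H 0))) =
            ((1 + τ) * (1 - eL j (H 0)) - eL j (H.linear (ver o))) / ((n : ℝ) + 1) := by ring
        rw [e]
        exact div_nonneg (by linarith) hn1.le
      · rw [div_le_iff₀ hn1]
        have h1 := hcen j o
        linarith) hs0 (by
      rw [Finset.sum_sub_distrib, sum_eL, Finset.sum_const, Finset.card_univ, Fintype.card_fin,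
        nsmul_eq_mul]
      push_cast
      ring)
  rw [det_bary H B fun j o => rfl] at hdet
  -- the volumes
  have hvol : volume (D0 n) =
      ENNReal.ofReal |LinearMap.det (H.linear : (Fin n → ℝ) →ₗ[ℝ] (Fin n → ℝ))| * volume D' := by
    have h1 : H '' D' = (fun z => z + H 0) '' ((H.linear : (Fin n → ℝ) →ₗ[ℝ] (Fin n → ℝ)) '' D') := by
      rw [image_image]
      exact image_congr fun x _ => hHx x
    rw [← hH, h1, Set.image_add_right, measure_preimage_add_right,
      Measure.addHaar_image_linearMap]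
  rw [hvol, ENNReal.toReal_mul, ENNReal.toReal_ofReal (abs_nonneg _)]
  refine mul_le_mul_of_nonneg_right (hdet.trans ?_) ENNReal.toReal_nonneg
  have h1 : (τ / ((n : ℝ) + 1)) ^ 2 ≤ τ ^ 2 := by
    apply pow_le_pow_left₀ (by positivity)
    rw [div_le_iff₀ hn1]
    nlinarith
  nlinarith

end Pool.Agent.Helper98.LQ
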